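import Pool.Agent.X39.Near.Pow
import Pool.Agent.X39.Near.DepInt

/-!
# The numbers `t`, `3 ^ t`, `5 ^ t`, … for ALL `t` with `2 ^ t` algebraic and close to any number outside a set of dimension zero

The question: is at least one of `2 ^ t`, `3 ^ t` transcendental, for all irrational real `t`? We prove, outside ONE set `E` of
complex numbers of Hausdorff dimension `0` (for all bases, number fields, degrees and scales): for all complex (for instance
real) `t₀` with `2 ^ t₀ ∉ E`, all integers `b_1, …, b_m ≥ 1` such that `2, b_1, …, b_m` are multiplicatively independent (for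
instance `m = 1`, `b_1 = 3`) and ALL `t` close to `t₀` for which `2 ^ t` is algebraic, in a given number field `F`, of height at
most `T`, with `|2 ^ t - 2 ^ t₀| ≤ T ^ (-ω)`: the numbers `t`, `b_1 ^ t`, …, `b_m ^ t` satisfy no relation of bounded degree
with coefficients of polynomial size, even approximately; the coefficients may be polynomials in arbitrary constants
`ξ_1, …, ξ_g` fixed in advance (for instance `log 2`, `log 3`). In particular `3 ^ t` is not an element of `F` of height at most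
`T ^ A`, and nonzero integral polynomials `P` of degree at most `d` and of height at most `T ^ A` satisfy
`|P (t, 3 ^ t)| > T ^ (-B)`.

Proof: `z`, `exp (z log 2)`, `exp (z log b_k)` are algebraically independent functions; in the variable `2 ^ z` the levels of
the library give, on compact sets, at most `C T ^ ε` exceptional values of height `T`, for every `ε > 0`, and so a limsup set
of dimension `0` (`Pool.Agent.X39.Near`); all systems of bases are treated at the same time.
-/

set_option autoImplicit false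

open MvPolynomial NumberField

namespace Pool.Agent.Results.MP_47cfca_nt.ApproximationsOfAllNumbers

open Pool.Agent.X39.Near (Size Dep cf)

/-- `b ^ z = exp (z log b)` for integers `b ≥ 1` and complex `z` -/
noncomputable def power (b : ℕ) (z : ℂ) : ℂ := Complex.exp (z * (Real.log b : ℂ))

/-- the numbers `t`, `b_1 ^ t`, …, `b_m ^ t` -/
noncomputable def value {m : ℕ} (b : Fin m → ℕ) (t : ℂ) : Option (Fin m) → ℂ
  | none => t
  | some k => power (b k) t

/-- The integers `2, b_1, …, b_m` are multiplicatively independent. -/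
def Independent {m : ℕ} (b : Fin m → ℕ) : Prop :=
  ∀ (c₀ : ℤ) (c : Fin m → ℤ), (c₀ : ℝ) * Real.log 2 + ∑ k, (c k : ℝ) * Real.log (b k) = 0 → c₀ = 0 ∧ c = 0

/-- There is no relation between the numbers `v`: (1) in the sense of `Dep`, (2) for integral polynomials. -/
def NoRelation {J : Type} {g : ℕ} (v : J → ℂ) (ξ : Fin g → ℂ) (F : Type) [Field F] [NumberField F] (ι : F →+* ℂ)
    (d A : ℕ) (B T : ℝ) : Prop :=
  ¬ Dep v ξ F ι d A B T ∧
  ∀ P : MvPolynomial J ℤ, P ≠ 0 → (∀ j, P.degreeOf j ≤ d) →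
    (∀ e, |((P.coeff e : ℤ) : ℝ)| ≤ T ^ A) → T ^ (-B) < ‖aeval v P‖

/-- the functions of the logarithm `s = z log 2` -/
noncomputable def fn {m : ℕ} (b : Fin m → ℕ) : Option (Fin m) → ℂ → ℂ := fun j s => value b (s / (Real.log 2 : ℂ)) j

theorem log2 : (Real.log 2 : ℂ) ≠ 0 := by
  exact_mod_cast (Real.log_pos (by norm_num : (1 : ℝ) < 2)).ne'

theorem fn_an {m : ℕ} (b : Fin m → ℕ) (j) (s : ℂ) : AnalyticAt ℂ (fn b j) s := by
  rcases j with _ | k
  · exact analyticAt_id.div analyticAt_const log2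
  · exact ((analyticAt_id.div analyticAt_const log2).mul analyticAt_const).cexp

theorem fn_ind {m : ℕ} {b : Fin m → ℕ} (hb : Independent b) (s₀ : ℂ) (P : MvPolynomial (Option (Option (Fin m))) ℂ)
    (hP : ∀ᶠ s in nhds s₀, eval (fun o : Option (Option (Fin m)) => o.elim (Complex.exp s) fun j => fn b j s) P = 0) :
    P = 0 := by
  have h1 := Pool.Agent.X39.Near.loc_lin (s := m + 1)
    (γ := Fin.cons (Real.log 2 : ℂ) fun k => (Real.log (b k) : ℂ)) (fun c hc => by
    rw [Fin.sum_univ_succ] at hc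
    simp only [Fin.cons_zero, Fin.cons_succ] at hc
    obtain ⟨h2, h3⟩ := hb (c 0) (fun k => c k.succ) (by exact_mod_cast hc)
    funext k
    exact Fin.cases h2 (fun k => congrFun h3 k) k) (s₀ / (Real.log 2 : ℂ))
  apply rename_injective _ (Pool.Agent.X39.Near.swV_inj (m := m))
  rw [map_zero]
  apply h1
  have hc : Filter.Tendsto (fun z : ℂ => z * (Real.log 2 : ℂ)) (nhds (s₀ / (Real.log 2 : ℂ))) (nhds s₀) := by
    have h2 : Filter.Tendsto (fun z : ℂ => z * (Real.log 2 : ℂ)) (nhds (s₀ / (Real.log 2 : ℂ)))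
        (nhds (s₀ / (Real.log 2 : ℂ) * (Real.log 2 : ℂ))) := (continuous_id.mul continuous_const).tendsto _
    rwa [div_mul_cancel₀ _ log2] at h2
  filter_upwards [hc.eventually hP] with z hz
  rw [eval_rename, ← hz]
  congr 2
  funext o
  rcases o with _ | _ | k
  · show Complex.exp ((Real.log 2 : ℂ) * z) = Complex.exp (z * (Real.log 2 : ℂ))
    rw [mul_comm]
  · show z = z * (Real.log 2 : ℂ) / (Real.log 2 : ℂ)
    rw [mul_div_cancel_right₀ _ log2]
  · show Complex.exp ((Real.log (b k) : ℂ) * z) = Complex.exp (z * (Real.log 2 : ℂ) / (Real.log 2 : ℂ) * (Real.log (b k) : ℂ))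
    rw [mul_div_cancel_right₀ _ log2, mul_comm]

/-- **Theorem.** Let `ξ_1, …, ξ_g` be complex numbers. There is a set `E` of complex numbers of Hausdorff dimension `0` such
that for all complex `t₀` with `2 ^ t₀ ∉ E`, all integers `b_1, …, b_m` such that `2, b_1, …, b_m` are multiplicatively
independent, all number fields `F` with an embedding `ι` in `ℂ`, all `d`, `A` and `ω > 0` there are `B`, `T₁` such that for
all `T ≥ T₁`, all `a ∈ F`, quotients of integers with conjugates at most `T`, with `|ι a - 2 ^ t₀| ≤ T ^ (-ω)`, and all `t` with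
`2 ^ t = ι a` and `|t - t₀| < 1`, there is no relation between the numbers `t`, `b_1 ^ t`, …, `b_m ^ t`. -/
theorem result {g : ℕ} (ξ : Fin g → ℂ) :
    ∃ E : Set ℂ, dimH E = 0 ∧ ∀ t₀ : ℂ, power 2 t₀ ∉ E → ∀ (m : ℕ) (b : Fin m → ℕ), Independent b →
      ∀ (F : Type) [Field F] [NumberField F] (ι : F →+* ℂ) (d A : ℕ) (ω : ℝ), 0 < ω → ∃ B T₁ : ℝ, ∀ T : ℝ, T₁ ≤ T →
        ∀ a : F, Size F T a → ‖ι a - power 2 t₀‖ ≤ T ^ (-ω) → ∀ t : ℂ, power 2 t = ι a → ‖t - t₀‖ < 1 →
          NoRelation (value b t) ξ F ι d A B T := by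
  classical
  have H : ∀ i : Σ m : ℕ, Fin m → ℕ, ∃ E : Set ℂ, dimH E = 0 ∧ (Independent i.2 → ∀ x : ℂ, x ∉ E → ∀ l₀ : ℂ,
      Complex.exp l₀ = x →
      ∀ (F : Type) [Field F] [NumberField F] (ι : F →+* ℂ) (d A : ℕ) (ω : ℝ), 0 < ω → ∃ B T₁ : ℝ, ∀ T : ℝ, T₁ ≤ T →
        ∀ t : F, Size F T t → ‖ι t - x‖ ≤ T ^ (-ω) → ∀ ℓ : ℂ, Complex.exp ℓ = ι t → ‖ℓ - l₀‖ < 1 →
          ¬ Dep (fun j => fn i.2 j ℓ) ξ F ι d A B T) := by
    intro i
    by_cases hi : Independent i.2
    · obtain ⟨E, h1, h2⟩ := Pool.Agent.X39.Near.near_log (fn i.2) (fn_an i.2) (fn_ind hi) ξ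
      exact ⟨E, h1, fun _ => h2⟩
    · exact ⟨∅, dimH_empty, fun h => absurd h hi⟩
  choose E hE0 hE using H
  refine ⟨⋃ i, E i, by rw [dimH_iUnion]; simp [hE0], fun t₀ ht₀ m b hb F _ _ ι d A ω hω => ?_⟩
  have e2 : ∀ z : ℂ, power 2 z = Complex.exp (z * (Real.log 2 : ℂ)) := fun z => by
    rw [power]
    norm_num
  obtain ⟨B, T₁, h2⟩ := hE ⟨m, b⟩ hb (power 2 t₀) (fun h => ht₀ (Set.mem_iUnion.2 ⟨_, h⟩)) (t₀ * (Real.log 2 : ℂ))
    (e2 t₀).symm F ι d A ω hω
  refine ⟨B, max T₁ 1, fun T hT a ha hax t ht htt => ?_⟩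
  have hlt : ‖t * (Real.log 2 : ℂ) - t₀ * (Real.log 2 : ℂ)‖ < 1 := by
    rw [← sub_mul, norm_mul, Complex.norm_real, Real.norm_eq_abs, abs_of_pos (Real.log_pos (by norm_num))]
    have h3 : Real.log 2 < 1 := by
      have := Real.log_two_lt_d9
      linarith
    have h4 := Real.log_pos (by norm_num : (1 : ℝ) < 2)
    calc ‖t - t₀‖ * Real.log 2 ≤ 1 * Real.log 2 := mul_le_mul_of_nonneg_right htt.le h4.le
      _ < 1 := by linarith
  have h5 := h2 T ((le_max_left _ _).trans hT) a ha hax (t * (Real.log 2 : ℂ)) (by rw [← e2, ht]) hlt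
  have hv : (fun j => fn b j (t * (Real.log 2 : ℂ))) = value b t := by
    funext j
    show value b (t * (Real.log 2 : ℂ) / (Real.log 2 : ℂ)) j = value b t j
    rw [mul_div_cancel_right₀ _ log2]
  have h4 : ¬ Dep (value b t) ξ F ι d A B T := by
    change ¬ Dep (fun j => fn b j (t * (Real.log 2 : ℂ))) ξ F ι d A B T at h5
    rwa [hv] at h5
  have hT0 : 0 < T := lt_of_lt_of_le one_pos ((le_max_right _ _).trans hT)
  exact ⟨h4, fun P hP hPd hPA => Pool.Agent.X39.Near.int_of_not_dep h4 hT0 P hP hPd fun e => by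
      exact_mod_cast hPA e⟩

end Pool.Agent.Results.MP_47cfca_nt.ApproximationsOfAllNumbers
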